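import Pool.Agent.MP_fcd29e_an.H81.Spec2

/-! The main term is of order the square root of `L`. -/

set_option autoImplicit false

open Pool.Agent.MP_fcd29e_an.H81 MeasureTheory Complex Set Filter Topology Metric
open scoped ContDiff ComplexConjugate ENNReal NNReal

namespace Pool.Agent.MP_fcd29e_an.H75

variable {N : ℕ}

theorem g2_infDist_le {K : Set (E N)} (hc : Cone K) (hne : K.Nonempty) (z : E N) :
    infDist z K ≤ ‖z‖ := by
  obtain ⟨p, hp⟩ := hne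
  have hp0 : p ≠ 0 := fun h => hc.1 (h ▸ hp)
  have hp1 : 0 < ‖p‖ := norm_pos_iff.2 hp0
  refine le_of_forall_pos_le_add fun e he => ?_
  have h1 : ((e / ‖p‖ : ℝ) : ℂ) • p ∈ K :=
    hc.2 _ (Complex.ofReal_ne_zero.2 (div_pos he hp1).ne') p hp
  calc infDist z K ≤ dist z (((e / ‖p‖ : ℝ) : ℂ) • p) := infDist_le_dist_of_mem h1
    _ ≤ ‖z‖ + ‖((e / ‖p‖ : ℝ) : ℂ) • p‖ := by rw [dist_eq_norm]; exact norm_sub_le _ _
    _ = ‖z‖ + e := by
      rw [norm_smul, Complex.norm_real, Real.norm_eq_abs, abs_of_pos (div_pos he hp1),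
        div_mul_cancel₀ _ hp1.ne']

theorem g2_d1_smooth {α : Fin N → E N → ℂ} (hα : ∀ k, ContDiffOn ℝ ∞ (α k) (E0 N)) {z : E N}
    (hz : z ≠ 0) (j k : Fin N) : ContDiffAt ℝ ∞ (d1 α j k) z :=
  (contDiffAt_dzb j ((hα k).contDiffAt (isOpen_E0.mem_nhds hz))).sub
    (contDiffAt_dzb k ((hα j).contDiffAt (isOpen_E0.mem_nhds hz)))

theorem g2_d2 {α : Fin N → E N → ℂ} (hα : ∀ k, ContDiffOn ℝ ∞ (α k) (E0 N)) {z : E N}
    (hz : z ≠ 0) {g : E N → ℝ} (hg : DifferentiableAt ℝ (cx g) z) (i j k : Fin N) :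
    d2 (fun j k z => (g z : ℂ) * d1 α j k z) i j k z =
      w3 (fun a => dzb a (cx g) z) (fun a b => d1 α a b z) i j k := by
  have ha : ∀ k, ContDiffAt ℝ ∞ (α k) z := fun k => (hα k).contDiffAt (isOpen_E0.mem_nhds hz)
  have h1 : ∀ a b c, dzb a (fun z => (g z : ℂ) * d1 α b c z) z =
      dzb a (cx g) z * d1 α b c z +
        g z * (dzb a (dzb b (α c)) z - dzb a (dzb c (α b)) z) := by
    intro a b c
    rw [dzb_mul a hg (ContDiffAt.da (g2_d1_smooth hα hz b c)),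
      ← dzb_sub a (ContDiffAt.da (contDiffAt_dzb b (ha c))) (ContDiffAt.da (contDiffAt_dzb c (ha b)))]
    rfl
  simp only [d2, w3, h1]
  rw [dzb_dzb_comm j i (ha k), dzb_dzb_comm k i (ha j), dzb_dzb_comm k j (ha i)]
  ring

theorem g2_grad {χ : E N → ℝ} {θ : ℝ → ℝ} {z : E N} (hχ : DifferentiableAt ℝ χ z)
    (hθ : DifferentiableAt ℝ θ (‖z‖ ^ 2)) :
    ‖fderiv ℝ (fun z => χ z * θ (‖z‖ ^ 2)) z‖ ≤
      |χ z| * (|deriv θ (‖z‖ ^ 2)| * (2 * ‖z‖)) + |θ (‖z‖ ^ 2)| * ‖fderiv ℝ χ z‖ := by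
  have h1 := hθ.hasDerivAt.comp_hasFDerivAt z (hasStrictFDerivAt_norm_sq z).hasFDerivAt
  have h2 := (hχ.hasFDerivAt.mul h1).fderiv
  have h3 : fderiv ℝ (fun z => χ z * θ (‖z‖ ^ 2)) z = _ := h2
  rw [h3]
  refine (norm_add_le _ _).trans (add_le_add ?_ ?_)
  · rw [norm_smul, norm_smul, Real.norm_eq_abs, Real.norm_eq_abs]
    gcongr
    refine (norm_nsmul_le).trans ?_
    rw [innerSL_apply_norm]
    simp
  · rw [norm_smul, Real.norm_eq_abs]
    rfl

theorem g2_key {D : Set (E N)} (hD : MeasurableSet D) {f G : E N → ℝ} (hG : Integrable G)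
    (h0 : ∀ z, 0 ≤ G z) (h : ∀ z ∈ D, 0 ≤ f z ∧ f z ≤ G z) :
    0 ≤ ∫ z in D, f z ∧ ∫ z in D, f z ≤ ∫ z, G z := by
  have h1 : ∀ᵐ z ∂(volume.restrict D), 0 ≤ f z :=
    (ae_restrict_iff' hD).2 (Eventually.of_forall fun z hz => (h z hz).1)
  have h2 : ∀ᵐ z ∂(volume.restrict D), f z ≤ G z :=
    (ae_restrict_iff' hD).2 (Eventually.of_forall fun z hz => (h z hz).2)
  exact ⟨integral_nonneg_of_ae h1, (integral_mono_of_nonneg h1 hG.integrableOn h2).trans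
    (setIntegral_le_integral hG (Eventually.of_forall h0))⟩

/-- The weight on a shell. -/
noncomputable def g2H (N : ℕ) (a b : ℝ) : E N → ℝ :=
  indicator {z : E N | a ≤ ‖z‖ ∧ ‖z‖ ≤ b} fun z => (‖z‖ ^ (2 * N))⁻¹

theorem g2H_nonneg (a b : ℝ) (z : E N) : 0 ≤ g2H N a b z :=
  indicator_nonneg (fun _ _ => by positivity) z

theorem g2H_of_mem {a b : ℝ} {z : E N} (h1 : a ≤ ‖z‖) (h2 : ‖z‖ ≤ b) :
    g2H N a b z = (‖z‖ ^ (2 * N))⁻¹ :=
  indicator_of_mem (show z ∈ {z : E N | a ≤ ‖z‖ ∧ ‖z‖ ≤ b} from ⟨h1, h2⟩) _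

theorem g2H_int (hl : StmtLOG) (hN : 1 ≤ N) : ∃ C : ℝ, 0 ≤ C ∧ ∀ a b : ℝ, 0 < a → a ≤ b →
    Integrable (g2H N a b) ∧ ∫ z, g2H N a b z ≤ C * Real.log (b / a) := by
  obtain ⟨C, hC, h⟩ := hl.1 N hN
  refine ⟨C, hC, fun a b ha hab => ?_⟩
  have hm : MeasurableSet {z : E N | a ≤ ‖z‖ ∧ ‖z‖ ≤ b} :=
    ((isClosed_le continuous_const continuous_norm).inter
      (isClosed_le continuous_norm continuous_const)).measurableSet
  refine ⟨(integrable_indicator_iff hm).2 (h a b ha hab).1, ?_⟩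
  unfold g2H
  rw [integral_indicator hm]
  exact (h a b ha hab).2

theorem g2_sum_le {x : Fin N → Fin N → ℂ} {b : ℝ} (h : ∀ j k, ‖x j k‖ ≤ b) :
    ∑ j, ∑ k, ‖x j k‖ ^ 2 ≤ (N : ℝ) ^ 2 * b ^ 2 := by
  calc ∑ j, ∑ k, ‖x j k‖ ^ 2 ≤ ∑ _j : Fin N, ∑ _k : Fin N, b ^ 2 :=
        Finset.sum_le_sum fun j _ => Finset.sum_le_sum fun k _ => by
          have := h j k
          gcongr
    _ = (N : ℝ) ^ 2 * b ^ 2 := by
        simp only [Finset.sum_const, Finset.card_univ, Fintype.card_fin, nsmul_eq_mul]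
        ring

theorem g2_shell {a r : ℝ} (ha : 0 < a) (hr : 0 ≤ r) (h : r ^ 2 ∈ Icc (a ^ 2) (2 * a ^ 2)) :
    a ≤ r ∧ r ≤ 2 * a := by
  obtain ⟨h1, h2⟩ := h
  constructor
  · exact le_of_sq_le_sq h1 hr
  · nlinarith

theorem g2_first {A r d C : ℝ} {L : ℕ} (hL : 2 ≤ L) (hd : 0 < d) (hdr : d ≤ r) (hA : 0 ≤ A)
    (hAC : A ≤ C / d) (h1 : Real.exp (-(2 * L)) < r ^ 2) (h2 : d ≤ Real.exp (-(2 * L) + 1)) :
    A ^ 2 * r ^ 2 * (d / r) ^ 16 ≤ C ^ 2 / L := by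
  have hr : 0 < r := hd.trans_le hdr
  have hL' : (2 : ℝ) ≤ L := by exact_mod_cast hL
  have h3 : Real.exp (-L) < r := by
    have : Real.exp (-L) ^ 2 < r ^ 2 := by
      rw [← Real.exp_nat_mul]
      refine lt_of_eq_of_lt ?_ h1
      congr 1
      push_cast
      ring
    exact lt_of_pow_lt_pow_left₀ 2 hr.le this
  have hs0 : 0 < d / r := div_pos hd hr
  have hs1 : d / r ≤ 1 := (div_le_one hr).2 hdr
  have hs2 : d / r ≤ 1 / L := by
    have h4 : d / r ≤ Real.exp (-(2 * L) + 1) / Real.exp (-L) := by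
      gcongr
    rw [← Real.exp_sub] at h4
    refine h4.trans ?_
    have h5 : (L : ℝ) ≤ Real.exp (L - 1) := by
      have := Real.add_one_le_exp ((L : ℝ) - 1)
      linarith
    rw [show -(2 * (L : ℝ)) + 1 - -L = -(L - 1) by ring, Real.exp_neg, one_div]
    exact inv_anti₀ (by linarith) h5
  have h6 : A * r * (d / r) ≤ C := by
    have : A * d ≤ C := (le_div_iff₀ hd).1 hAC
    rwa [mul_assoc, mul_div_cancel₀ _ hr.ne']
  have h7 : (d / r) ^ 14 ≤ 1 / L :=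
    (pow_le_of_le_one hs0.le hs1 (by norm_num)).trans hs2
  calc A ^ 2 * r ^ 2 * (d / r) ^ 16 = (A * r * (d / r)) ^ 2 * (d / r) ^ 14 := by ring
    _ ≤ C ^ 2 * (1 / L) := by gcongr
    _ = C ^ 2 / L := by ring

theorem g2 (_L : Lv0) (hl : StmtLOG) (hq : StmtQA) (h : StmtH5) : StmtG2 := by
  intro N ρ K μ α R C₁ C₂ C₃ hN h1 h2 h3 hK hα hR hV
  obtain ⟨Cl, hCl, hlog⟩ := g2H_int (N := N) hl (by omega)
  obtain ⟨Ct, hCt, hth⟩ := hl.2.2.2.2
  refine ⟨16 * ((N : ℝ) ^ 2 * C₁ ^ 2 * C₃ * (Cl * 10)) *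
    (9 * (N : ℝ) ^ 2 * C₂ ^ 2 * C₃ * (2 * C₃ ^ 2 * (Cl * 10) + 8 * Ct ^ 2 * (Cl + Cl))), ?_⟩
  intro L χ D p ψ m c hL hG
  obtain ⟨hθs, hθ, -, -⟩ := hth L
  have hL' : (2 : ℝ) ≤ L := by exact_mod_cast hL
  have hDm : MeasurableSet D := hG.hd.opn.measurableSet
  have hz0 : ∀ z ∈ D, z ≠ 0 := fun z hz e => hG.hd.ne0 (e ▸ hz)
  have hd0 : ∀ z ∈ D, 0 < infDist z K := fun z hz => (Real.exp_pos _).trans_le (hG.sub z hz).1
  have hdr : ∀ z, infDist z K ≤ ‖z‖ := g2_infDist_le hK.cone hK.ne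
  set g : E N → ℝ := fun z => χ z * thL L (‖z‖ ^ 2) with hg
  have hgs : ContDiff ℝ ∞ g := hG.χs.mul (hθs.comp (contDiff_norm_sq ℝ))
  have hgc : ∀ z, ContDiffAt ℝ ∞ (cx g) z := fun z => contDiffAt_cx hgs.contDiffAt
  set F : Fin N → Fin N → E N → ℂ := fun j k z => (g z : ℂ) * d1 α j k z with hF
  have hsupp : ∀ j k, tsupport (F j k) ⊆ {z | z ∈ D ∧ p z ≤ c - 1} := by
    intro j k
    refine Subset.trans (closure_mono fun z hz => ?_) hG.supp
    intro e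
    apply hz
    have e' : g z = 0 := e
    simp only [hF, e', ofReal_zero, zero_mul]
  have hT : ∀ j k, Test {z | z ∈ D ∧ p z ≤ c - 1} (F j k) := by
    intro j k
    refine ⟨contDiff_iff_contDiffAt.2 fun z => ?_,
      (hG.hd.cpt (c - 1) (by linarith)).of_isClosed_subset (isClosed_tsupport _) (hsupp j k),
      hsupp j k⟩
    by_cases hz : z ∈ tsupport (F j k)
    · exact (hgc z).mul (g2_d1_smooth hα (hz0 z (hsupp j k hz).1) j k)
    · exact contDiffAt_const.congr_of_eventuallyEq (notMem_tsupport_iff_eventuallyEq.1 hz)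
  have hFa : ∀ j k z, F j k z = -F k j z := by
    intro j k z
    simp only [hF, d1]
    ring
  have hrep : Rf ρ μ F = ∑ j, ∑ k, ∫ z in D, R j k z * F j k z := by
    rw [hR.rep F (fun j k => ⟨(hT j k).1, (hT j k).2.1, fun z hz => hd0 z (hsupp j k hz).1⟩) hFa]
    refine Finset.sum_congr rfl fun j _ => Finset.sum_congr rfl fun k _ => ?_
    refine (setIntegral_eq_integral_of_forall_compl_eq_zero fun z hz => ?_).symm
    rw [image_eq_zero_of_notMem_tsupport fun e => hz (hsupp j k e).1, mul_zero]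
  have hfin : IsFiniteMeasure (volume.restrict D) :=
    ⟨by rw [Measure.restrict_apply_univ]; exact hG.hd.bdd.measure_lt_top⟩
  have hmem : ∀ j k, MemLp (R j k) 2 (volume.restrict D) := by
    intro j k
    refine MemLp.of_bound (hR.meas j k).restrict
      (C₁ * Real.exp (4 * L) ^ 2 / Real.exp (-(2 * L + 7)) ^ (2 * N)) ?_
    refine (ae_restrict_iff' hDm).2 (Eventually.of_forall fun z hz => ?_)
    refine (hR.bd j k z (hd0 z hz)).trans ?_
    have := hG.sub z hz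
    gcongr
    · exact this.2
    · exact this.1
  have hws : WS D R 0 := by
    intro k φ hφ
    have hsub : D ⊆ {y | 0 < infDist y K} := hd0
    have hU : MeasurableSet {y : E N | 0 < infDist y K} :=
      (isOpen_lt continuous_const (continuous_infDist_pt K)).measurableSet
    have e := hR.cl k φ ⟨hφ.1, hφ.2.1, hφ.2.2.trans hsub⟩
    simp only [Pi.zero_apply, zero_mul, integral_zero, neg_zero] at e ⊢
    rw [← e]
    refine (setIntegral_eq_of_subset_of_forall_sdiff_eq_zero hU hsub fun z hz => ?_).symm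
    refine Finset.sum_eq_zero fun j _ => ?_
    have hz' : z ∉ tsupport φ := fun e => hz.2 (hφ.2.2 e)
    rw [dzb_congr (notMem_tsupport_iff_eventuallyEq.1 hz') j]
    have : dzb j (0 : E N → ℂ) z = 0 := dzb_const j 0 z
    rw [this, mul_zero]
  have H := h N D p ψ m c R F (by omega) hG.hd hmem hR.alt hws hT hFa
  obtain ⟨m₀, hm₀, m₁, hm⟩ := hG.hd.mb
  have hab : Real.exp (-(2 * L + 7)) ≤ Real.exp (4 * L) := Real.exp_le_exp.2 (by linarith)
  obtain ⟨i0, b0⟩ := hlog _ _ (Real.exp_pos _) hab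
  have b0' : ∫ z, g2H N (Real.exp (-(2 * L + 7))) (Real.exp (4 * L)) z ≤ Cl * 10 * L := by
    refine b0.trans ?_
    rw [← Real.exp_sub, Real.log_exp, mul_assoc]
    gcongr
    linarith
  have hsh : ∀ a : ℝ, 0 < a → Integrable (g2H N a (2 * a)) ∧ ∫ z, g2H N a (2 * a) z ≤ Cl := by
    intro a ha
    obtain ⟨i, b⟩ := hlog a (2 * a) ha (by linarith)
    refine ⟨i, b.trans ?_⟩
    rw [mul_div_cancel_right₀ _ ha.ne']
    have : Real.log 2 ≤ 1 := by
      have := Real.log_le_sub_one_of_pos (show (0 : ℝ) < 2 by norm_num)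
      linarith
    exact mul_le_of_le_one_right hCl this
  obtain ⟨i1, b1⟩ := hsh _ (Real.exp_pos (-L))
  obtain ⟨i2, b2⟩ := hsh _ (Real.exp_pos L)
  have hH0 : ∀ z ∈ D, g2H N (Real.exp (-(2 * L + 7))) (Real.exp (4 * L)) z = (‖z‖ ^ (2 * N))⁻¹ :=
    fun z hz => g2H_of_mem ((hG.sub z hz).1.trans (hdr z)) (hG.sub z hz).2
  -- the first factor
  have I1 := g2_key hDm (f := fun z => (∑ j, ∑ k, ‖R j k z‖ ^ 2) * (Real.exp (-ψ z) / m z))
    (i0.const_mul ((N : ℝ) ^ 2 * C₁ ^ 2 * C₃))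
    (fun z => mul_nonneg (by positivity) (g2H_nonneg _ _ z)) (by
      intro z hz
      have hm0 : 0 < m z := hm₀.trans_le (hm z hz).1
      have hd := hd0 z hz
      have hr : 0 < ‖z‖ := norm_pos_iff.2 (hz0 z hz)
      refine ⟨by positivity, ?_⟩
      rw [hH0 z hz]
      calc (∑ j, ∑ k, ‖R j k z‖ ^ 2) * (Real.exp (-ψ z) / m z)
          ≤ ((N : ℝ) ^ 2 * (C₁ * ‖z‖ ^ 2 / infDist z K ^ (2 * N)) ^ 2) *
            (C₃ * infDist z K ^ (4 * N) / ‖z‖ ^ (2 * N + 4)) :=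
            mul_le_mul (g2_sum_le fun j k => hR.bd j k z hd) (hG.w1 z hz) (by positivity)
              (by positivity)
        _ = (N : ℝ) ^ 2 * C₁ ^ 2 * C₃ * (‖z‖ ^ (2 * N))⁻¹ := by
            field_simp
            ring)
  rw [integral_const_mul] at I1
  -- the second factor
  have I2 := g2_key hDm (f := fun z => (∑ i, ∑ j, ∑ k, ‖d2 F i j k z‖ ^ 2) * Real.exp (ψ z))
    (((i0.const_mul (2 * C₃ ^ 2 / L)).add ((i1.add i2).const_mul (8 * Ct ^ 2))).const_mul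
      (9 * (N : ℝ) ^ 2 * C₂ ^ 2 * C₃))
    (fun z => mul_nonneg (by positivity) (add_nonneg
      (mul_nonneg (by positivity) (g2H_nonneg _ _ z))
      (mul_nonneg (by positivity) (add_nonneg (g2H_nonneg _ _ z) (g2H_nonneg _ _ z))))) (by
      intro z hz
      have hd := hd0 z hz
      have hr : 0 < ‖z‖ := norm_pos_iff.2 (hz0 z hz)
      refine ⟨by positivity, ?_⟩
      have hgd : DifferentiableAt ℝ g z := hgs.contDiffAt.differentiableAt (by simp)
      have s1 : ∑ i, ‖dzb i (cx g) z‖ ^ 2 ≤ ‖fderiv ℝ g z‖ ^ 2 := by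
        simp only [dzb_cx, Complex.norm_conj]
        exact (hq N z).2.2.2.1 g hgd
      have s2 : ∑ i, ∑ j, ∑ k, ‖d2 F i j k z‖ ^ 2 ≤ 9 * ‖fderiv ℝ g z‖ ^ 2 *
          ((N : ℝ) ^ 2 * (C₂ * (infDist z K / ‖z‖) ^ (2 * N + 8) / ‖z‖ ^ 2) ^ 2) := by
        simp only [hF, g2_d2 hα (hz0 z hz) (ContDiffAt.da (hgc z))]
        refine ((hq N z).2.2.2.2 _ _).trans ?_
        have s3 := g2_sum_le fun j k => (hV j k z (hz0 z hz)).1
        gcongr
      have s4 := g2_grad (χ := χ) (θ := thL L) (z := z)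
        (hG.χs.contDiffAt.differentiableAt (by simp)) (hθs.contDiffAt.differentiableAt (by simp))
      obtain ⟨t0, t1, t2, t3, t4⟩ := hθ (‖z‖ ^ 2)
      set A := |thL L (‖z‖ ^ 2)| * ‖fderiv ℝ χ z‖ with hA
      set B := |χ z| * (|deriv (thL L) (‖z‖ ^ 2)| * (2 * ‖z‖)) with hB
      have hA0 : 0 ≤ A := by positivity
      have hB0 : 0 ≤ B := by positivity
      have hs0 : 0 < infDist z K / ‖z‖ := div_pos hd hr
      have hs1 : infDist z K / ‖z‖ ≤ 1 := (div_le_one hr).2 (hdr z)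
      have cA : A ^ 2 * ‖z‖ ^ 2 * (infDist z K / ‖z‖) ^ 16 ≤ C₃ ^ 2 / L := by
        by_cases e1 : thL L (‖z‖ ^ 2) = 0
        · rw [hA, e1]
          simp only [abs_zero, zero_mul, ne_eq, OfNat.ofNat_ne_zero, not_false_eq_true, zero_pow]
          positivity
        by_cases e2 : Real.exp (-(2 * L) + 1) < infDist z K
        · have e3 : χ =ᶠ[𝓝 z] fun _ => 1 := hG.χ1 z e2
          rw [hA, e3.fderiv_eq]
          simp only [fderiv_fun_const, Pi.zero_apply, norm_zero, mul_zero, zero_mul, ne_eq,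
            OfNat.ofNat_ne_zero, not_false_eq_true, zero_pow]
          positivity
        refine g2_first hL hd (hdr z) hA0 ?_ (t2 e1).1 (not_lt.1 e2)
        rw [hA, abs_of_nonneg t0]
        exact (mul_le_of_le_one_left (norm_nonneg _) t1).trans (hG.χd z)
      have cB : B ^ 2 * ‖z‖ ^ 2 * (infDist z K / ‖z‖) ^ 16 * (‖z‖ ^ (2 * N))⁻¹ ≤
          4 * Ct ^ 2 * (g2H N (Real.exp (-L)) (2 * Real.exp (-L)) z +
            g2H N (Real.exp L) (2 * Real.exp L) z) := by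
        have n1 := g2H_nonneg (Real.exp (-L)) (2 * Real.exp (-L)) z
        have n2 := g2H_nonneg (Real.exp L) (2 * Real.exp L) z
        by_cases e1 : deriv (thL L) (‖z‖ ^ 2) = 0
        · rw [hB, e1]
          simp only [abs_zero, zero_mul, mul_zero, ne_eq, OfNat.ofNat_ne_zero, not_false_eq_true,
            zero_pow]
          positivity
        have u1 : B * ‖z‖ ≤ 2 * Ct := by
          rw [abs_mul, abs_of_nonneg (sq_nonneg ‖z‖)] at t3
          have u2 : |χ z| ≤ 1 := by rw [abs_of_nonneg (hG.χb z).1]; exact (hG.χb z).2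
          calc B * ‖z‖ = |χ z| * (2 * (|deriv (thL L) (‖z‖ ^ 2)| * ‖z‖ ^ 2)) := by rw [hB]; ring
            _ ≤ 1 * (2 * Ct) := by gcongr
            _ = 2 * Ct := one_mul _
        have u3 : B ^ 2 * ‖z‖ ^ 2 * (infDist z K / ‖z‖) ^ 16 ≤ 4 * Ct ^ 2 := by
          have u4 : (infDist z K / ‖z‖) ^ 16 ≤ 1 := pow_le_one₀ hs0.le hs1
          calc B ^ 2 * ‖z‖ ^ 2 * (infDist z K / ‖z‖) ^ 16
              = (B * ‖z‖) ^ 2 * (infDist z K / ‖z‖) ^ 16 := by ring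
            _ ≤ (2 * Ct) ^ 2 * 1 := by gcongr
            _ = 4 * Ct ^ 2 := by ring
        have u5 : (‖z‖ ^ (2 * N))⁻¹ ≤ g2H N (Real.exp (-L)) (2 * Real.exp (-L)) z +
            g2H N (Real.exp L) (2 * Real.exp L) z := by
          have q1 : Real.exp (-(2 * L)) = Real.exp (-L) ^ 2 := by
            rw [← Real.exp_nat_mul]; congr 1; push_cast; ring
          have q2 : Real.exp (2 * L) = Real.exp L ^ 2 := by
            rw [← Real.exp_nat_mul]; congr 1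
          rcases t4 e1 with u | u
          · rw [q1] at u
            obtain ⟨v1, v2⟩ := g2_shell (Real.exp_pos _) hr.le u
            rw [g2H_of_mem v1 v2]
            linarith
          · rw [q2] at u
            obtain ⟨v1, v2⟩ := g2_shell (Real.exp_pos _) hr.le u
            rw [g2H_of_mem v1 v2]
            linarith
        gcongr
      have s5 : ‖fderiv ℝ g z‖ ^ 2 ≤ 2 * A ^ 2 + 2 * B ^ 2 := by
        have : ‖fderiv ℝ g z‖ ^ 2 ≤ (B + A) ^ 2 := by gcongr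
        exact this.trans (by nlinarith only [sq_nonneg (A - B)])
      simp only [Pi.add_apply]
      rw [hH0 z hz]
      calc (∑ i, ∑ j, ∑ k, ‖d2 F i j k z‖ ^ 2) * Real.exp (ψ z)
          ≤ (9 * (2 * A ^ 2 + 2 * B ^ 2) *
            ((N : ℝ) ^ 2 * (C₂ * (infDist z K / ‖z‖) ^ (2 * N + 8) / ‖z‖ ^ 2) ^ 2)) *
            (C₃ * ‖z‖ ^ (2 * N + 6) / infDist z K ^ (4 * N)) := by
            refine mul_le_mul (s2.trans ?_) (hG.w2 z hz) (by positivity) (by positivity)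
            gcongr
        _ = 9 * (N : ℝ) ^ 2 * C₂ ^ 2 * C₃ *
            (2 * (A ^ 2 * ‖z‖ ^ 2 * (infDist z K / ‖z‖) ^ 16) * (‖z‖ ^ (2 * N))⁻¹ +
              2 * (B ^ 2 * ‖z‖ ^ 2 * (infDist z K / ‖z‖) ^ 16 * (‖z‖ ^ (2 * N))⁻¹)) := by
            simp only [div_pow]
            field_simp
            ring
        _ ≤ 9 * (N : ℝ) ^ 2 * C₂ ^ 2 * C₃ *
            (2 * (C₃ ^ 2 / L) * (‖z‖ ^ (2 * N))⁻¹ +
              2 * (4 * Ct ^ 2 * (g2H N (Real.exp (-L)) (2 * Real.exp (-L)) z +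
                g2H N (Real.exp L) (2 * Real.exp L) z))) := by gcongr
        _ = _ := by ring)
  simp only [Pi.add_apply] at I2
  have i12 : Integrable fun z => g2H N (Real.exp (-L)) (2 * Real.exp (-L)) z +
      g2H N (Real.exp L) (2 * Real.exp L) z := i1.add i2
  rw [integral_const_mul, integral_add (i0.const_mul _) (i12.const_mul _),
    integral_const_mul, integral_const_mul, integral_add i1 i2] at I2
  have J1 := I1.2.trans (mul_le_mul_of_nonneg_left b0' (by positivity))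
  have J2 : ∫ z in D, (∑ i, ∑ j, ∑ k, ‖d2 F i j k z‖ ^ 2) * Real.exp (ψ z) ≤
      9 * (N : ℝ) ^ 2 * C₂ ^ 2 * C₃ * (2 * C₃ ^ 2 * (Cl * 10) + 8 * Ct ^ 2 * (Cl + Cl)) := by
    refine I2.2.trans ?_
    have e : 2 * C₃ ^ 2 * (Cl * 10) = 2 * C₃ ^ 2 / L * (Cl * 10 * L) := by
      field_simp
    rw [e]
    gcongr
  change ‖Rf ρ μ F‖ ^ 2 ≤ _
  rw [hrep]
  refine H.trans ?_
  have I20 := I2.1
  calc 16 * (∫ z in D, (∑ j, ∑ k, ‖R j k z‖ ^ 2) * (Real.exp (-ψ z) / m z)) *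
        ∫ z in D, (∑ i, ∑ j, ∑ k, ‖d2 F i j k z‖ ^ 2) * Real.exp (ψ z)
      ≤ 16 * ((N : ℝ) ^ 2 * C₁ ^ 2 * C₃ * (Cl * 10 * L)) *
        (9 * (N : ℝ) ^ 2 * C₂ ^ 2 * C₃ * (2 * C₃ ^ 2 * (Cl * 10) + 8 * Ct ^ 2 * (Cl + Cl))) := by
        gcongr
    _ = _ := by ring

end Pool.Agent.MP_fcd29e_an.H75
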