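import Pool.Agent.MP_fcd29e_an.H81.Spec

/-! Homogeneity and weak derivatives. -/

set_option autoImplicit false

namespace Pool.Agent.MP_fcd29e_an.H75

open Pool.Agent.MP_fcd29e_an.H81 MeasureTheory Complex Set Filter Topology Metric
open scoped ContDiff ComplexConjugate ENNReal NNReal

variable {N : ℕ} {U : Set (E N)} {a b : ℤ}

theorem cone_not (hC : Cone U) {c : ℂ} (hc : c ≠ 0) {z : E N} (hz : z ∉ U) : c • z ∉ U := by
  intro h
  apply hz
  have := hC.2 c⁻¹ (inv_ne_zero hc) _ h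
  rwa [smul_smul, inv_mul_cancel₀ hc, one_smul] at this

theorem zero_off {ψ : E N → ℂ} (hψ : tsupport ψ ⊆ U) {z : E N} (hz : z ∉ U) : ψ z = 0 :=
  image_eq_zero_of_notMem_tsupport fun h => hz (hψ h)

theorem scale_any (h0 : StmtT0) (hC : Cone U) (f ψ : E N → ℂ) (hψ : tsupport ψ ⊆ U) {c : ℂ}
    (hc : c ≠ 0) : ∫ z in U, f (c • z) * ψ (c • z) =
      ((‖c‖ ^ (2 * N) : ℝ) : ℂ)⁻¹ * ∫ z in U, f z * ψ z := by
  rw [setIntegral_eq_integral_of_forall_compl_eq_zero fun z hz => by
      rw [zero_off hψ (cone_not hC hc hz), mul_zero],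
    setIntegral_eq_integral_of_forall_compl_eq_zero fun z hz => by
      rw [zero_off hψ hz, mul_zero]]
  exact (h0.1 N c hc).1 fun z => f z * ψ z

theorem scale_hom (h0 : StmtT0) (hU : IsOpen U) (hC : Cone U) {f : E N → ℂ} (hf : AH U a b f)
    (ψ : E N → ℂ) (hψ : tsupport ψ ⊆ U) {c : ℂ} (hc : c ≠ 0) :
    c ^ a * conj c ^ b * ∫ z in U, f z * ψ (c • z) =
      ((‖c‖ ^ (2 * N) : ℝ) : ℂ)⁻¹ * ∫ z in U, f z * ψ z := by
  rw [← scale_any h0 hC f ψ hψ hc, ← integral_const_mul]
  refine integral_congr_ae ((ae_restrict_iff' hU.measurableSet).2 ?_)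
  filter_upwards [hf c hc] with z h hz
  rw [h hz]
  ring

theorem test_smul (hC : Cone U) {ψ : E N → ℂ} (hψ : Test U ψ) {c : ℂ} (hc : c ≠ 0) :
    Test U fun z => ψ (c • z) := by
  refine ⟨hψ.1.comp (contDiff_id.const_smul c), hψ.2.1.comp_smul hc, ?_⟩
  have h1 : tsupport (fun z : E N => ψ (c • z)) ⊆ (fun z : E N => c • z) ⁻¹' tsupport ψ :=
    closure_minimal (fun z hz => subset_tsupport ψ hz)
      ((isClosed_tsupport ψ).preimage (continuous_const_smul c))
  intro z hz
  by_contra h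
  exact cone_not hC hc h (hψ.2.2 (h1 hz))

theorem dzb_smul {ψ : E N → ℂ} (hψ : Differentiable ℝ ψ) (c : ℂ) (j : Fin N) (z : E N) :
    dzb j (fun y => ψ (c • y)) z = conj c * dzb j ψ (c • z) := by
  have h1 : ∀ v, fderiv ℝ (fun y => ψ (c • y)) z v = fderiv ℝ ψ (c • z) (c • v) := by
    intro v
    have h2 : HasFDerivAt (fun y : E N => c • y) (c • ContinuousLinearMap.id ℝ (E N)) z :=
      (hasFDerivAt_id z).const_smul c
    have h3 := ((hψ (c • z)).hasFDerivAt.comp z h2).fderiv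
    have h4 := congrArg (fun A : E N →L[ℝ] ℂ => A v) h3
    simpa [Function.comp_def] using h4
  have h5 : ∀ d : ℂ, fderiv ℝ ψ (c • z) (d • ee j) =
      d * dz j ψ (c • z) + conj d * dzb j ψ (c • z) := by
    intro d
    rw [fderiv_eq, Finset.sum_eq_single j]
    · simp [ee]
    · intro k _ hk
      simp [ee, hk]
    · simp
  rw [dzb, h1, h1, smul_smul, h5, h5, map_mul, conj_I]
  linear_combination (c * dz j ψ (c • z) - conj c * dzb j ψ (c • z)) / 2 * I_mul_I

theorem euler_dir (h0 : StmtT0) (h1 : StmtT1) (hU : IsOpen U) (hC : Cone U) {f : E N → ℂ}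
    (hL : L2 U f) (hf : AH U a b f) {ψ : E N → ℂ} (hψ : Test U ψ) (w : ℂ) :
    IntegrableOn (fun z => f z * fderiv ℝ ψ z (w • z)) U ∧
    ∫ z in U, f z * fderiv ℝ ψ z (w • z) =
      -(N * (w + conj w) + a * w + b * conj w) * ∫ z in U, f z * ψ z := by
  obtain ⟨hloc, hmeas, hint, -⟩ := (h1 N U hU hC.1).1 f hL
  have hd : Differentiable ℝ ψ := hψ.1.differentiable (by simp)
  set G : E N → ℂ := fun y => fderiv ℝ ψ y (w • y) with hG
  have hGc : Continuous G :=
    (hψ.1.continuous_fderiv (by simp)).clm_apply (continuous_const_smul w)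
  have hG0 : ∀ y, y ∉ tsupport ψ → G y = 0 := by
    intro y hy
    have : fderiv ℝ ψ y = 0 := by
      by_contra h
      exact hy (support_fderiv_subset ℝ (f := ψ) h)
    simp [hG, this]
  have hGs : HasCompactSupport G := HasCompactSupport.intro hψ.2.1 hG0
  obtain ⟨C, hCb⟩ := hGc.bounded_above_of_compact_support hGs
  let γ : ℝ → ℂ := fun s => cexp (w * s)
  have hγ0 : ∀ s, γ s ≠ 0 := fun s => exp_ne_zero _
  have hγc : Continuous γ := by fun_prop
  have hγd : ∀ s, HasDerivAt γ (w * γ s) s := by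
    intro s
    have h2 : HasDerivAt (fun s : ℝ => w * (s : ℂ)) (w * 1) s :=
      (ofRealCLM.hasDerivAt (x := s)).const_mul w
    have h3 := h2.cexp
    rw [mul_one, mul_comm] at h3
    exact h3
  let K : Set (E N) := (fun q : ℝ × E N => (γ q.1)⁻¹ • q.2) '' (Icc (-1) 1 ×ˢ tsupport ψ)
  have hK : IsCompact K := (isCompact_Icc.prod hψ.2.1).image
    (((hγc.comp continuous_fst).inv₀ fun q => hγ0 _).smul continuous_snd)
  have hKU : K ⊆ U := by
    rintro _ ⟨q, hq, rfl⟩
    exact hC.2 _ (inv_ne_zero (hγ0 _)) _ (hψ.2.2 hq.2)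
  have hbd : Integrable (K.indicator fun z => ‖f z‖ * C) (volume.restrict U) :=
    ((integrable_indicator_iff hK.measurableSet).2
      ((hloc.integrableOn_compact_subset hKU hK).norm.mul_const C)).mono_measure
      Measure.restrict_le_self
  have key := hasDerivAt_integral_of_dominated_loc_of_deriv_le (μ := volume.restrict U)
    (F := fun (s : ℝ) z => f z * ψ (γ s • z)) (F' := fun (s : ℝ) z => f z * G (γ s • z))
    (x₀ := 0) (bound := K.indicator fun z => ‖f z‖ * C) (Metric.ball_mem_nhds 0 one_pos)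
    (Eventually.of_forall fun s => hmeas.mul
      (hψ.1.continuous.comp (continuous_const_smul _)).aestronglyMeasurable)
    (by
      have := (hint ψ hψ.1.continuous hψ.2.1 hψ.2.2).1.mono_measure
        (Measure.restrict_le_self (s := U))
      simpa [γ] using this)
    (hmeas.mul (hGc.comp (continuous_const_smul _)).aestronglyMeasurable)
    (ae_of_all _ fun z s hs => by
      by_cases hz : z ∈ K
      · rw [indicator_of_mem hz, norm_mul]
        exact mul_le_mul_of_nonneg_left (hCb _) (norm_nonneg _)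
      · rw [indicator_of_notMem hz, hG0, mul_zero, norm_zero]
        intro h
        apply hz
        refine ⟨(s, γ s • z), ⟨?_, h⟩, ?_⟩
        · have := mem_ball_zero_iff.1 hs
          rw [Real.norm_eq_abs, abs_lt] at this
          exact ⟨this.1.le, this.2.le⟩
        · simp only
          rw [smul_smul, inv_mul_cancel₀ (hγ0 s), one_smul])
    hbd
    (ae_of_all _ fun z s _ => by
      have h2 : HasDerivAt (fun s => γ s • z) ((w * γ s) • z) s := (hγd s).smul_const z
      have h3 := ((hd (γ s • z)).hasFDerivAt.comp_hasDerivAt s h2).const_mul (f z)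
      simpa [hG, mul_smul, Function.comp_def] using h3)
  obtain ⟨k1, k2⟩ := key
  have e0 : γ 0 = 1 := by simp [γ]
  simp only [e0, one_smul] at k1 k2
  refine ⟨k1, ?_⟩
  have h4 : (fun s : ℝ => ∫ z in U, f z * ψ (γ s • z)) = fun s : ℝ =>
      cexp (-(N * (w + conj w) + a * w + b * conj w) * s) * ∫ z in U, f z * ψ z := by
    funext s
    have h5 := scale_hom h0 hU hC hf ψ hψ.2.2 (hγ0 s)
    have e1 : γ s ^ a = cexp (a * (w * s)) := by rw [exp_int_mul]
    have e2 : conj (γ s) = cexp (conj w * s) := by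
      simp only [γ]
      rw [← exp_conj, map_mul, conj_ofReal]
    have e3 : ((‖γ s‖ ^ (2 * N) : ℝ) : ℂ) = cexp (N * (w * s + conj w * s)) := by
      rw [pow_mul, ofReal_pow, exp_nat_mul, exp_add, ← e2, mul_conj, normSq_eq_norm_sq]
    rw [e1, e2, ← exp_int_mul, e3, ← exp_neg, ← exp_add] at h5
    have h6 : cexp (a * (w * s) + b * (conj w * s)) ≠ 0 := exp_ne_zero _
    apply mul_left_cancel₀ h6
    rw [h5, ← mul_assoc, ← exp_add]
    congr 2
    ring
  rw [h4] at k2
  have h7 : HasDerivAt (fun s : ℝ => -(N * (w + conj w) + a * w + b * conj w) * (s : ℂ))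
      (-(N * (w + conj w) + a * w + b * conj w) * 1) 0 :=
    (ofRealCLM.hasDerivAt (x := 0)).const_mul _
  have h8 := h7.cexp.mul_const (∫ z in U, f z * ψ z)
  rw [k2.unique h8]
  simp

theorem euler_b (h0 : StmtT0) (h1 : StmtT1) (hU : IsOpen U) (hC : Cone U) {f : E N → ℂ}
    (hL : L2 U f) (hf : AH U a b f) {ψ : E N → ℂ} (hψ : Test U ψ) :
    ∫ z in U, f z * ∑ j, conj (z j) * dzb j ψ z = -((N : ℂ) + b) * ∫ z in U, f z * ψ z := by
  obtain ⟨i1, e1⟩ := euler_dir h0 h1 hU hC hL hf hψ 1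
  obtain ⟨i2, e2⟩ := euler_dir h0 h1 hU hC hL hf hψ I
  have h2 : ∀ z, f z * ∑ j, conj (z j) * dzb j ψ z =
      (1 / 2 : ℂ) * (f z * fderiv ℝ ψ z ((1 : ℂ) • z)) +
        I / 2 * (f z * fderiv ℝ ψ z (I • z)) := by
    intro z
    rw [fderiv_eq, fderiv_eq]
    simp only [Finset.mul_sum, ← Finset.sum_add_distrib]
    refine Finset.sum_congr rfl fun j _ => ?_
    simp only [one_smul, PiLp.smul_apply, smul_eq_mul, map_mul, conj_I]
    linear_combination (f z * (conj (z j) * dzb j ψ z - z j * dz j ψ z) / 2) * I_mul_I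
  simp only [h2]
  rw [integral_add (i1.const_mul _) (i2.const_mul _), integral_const_mul, integral_const_mul,
    e1, e2, map_one, conj_I]
  linear_combination ((b - a : ℂ) / 2 * ∫ z in U, f z * ψ z) * I_mul_I

theorem loc_smul (h0 : StmtT0) (hU : IsOpen U) (hC : Cone U) {g : E N → ℂ}
    (hg : LocallyIntegrableOn g U) {c : ℂ} (hc : c ≠ 0) :
    LocallyIntegrableOn (fun z => g (c • z)) U := by
  rw [locallyIntegrableOn_iff hU.isLocallyClosed]
  intro k hkU hk
  have h2 : IsCompact ((fun z : E N => c • z) '' k) := hk.image (continuous_const_smul c)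
  have h3 : (fun z : E N => c • z) '' k ⊆ U := by
    rintro _ ⟨z, hz, rfl⟩
    exact hC.2 c hc z (hkU hz)
  have h4 := (h0.1 N c hc).2.2.1 _ ((integrable_indicator_iff h2.measurableSet).2
    (hg.integrableOn_compact_subset h3 h2))
  refine (h4.integrableOn (s := k)).congr_fun (fun z hz => ?_) hk.measurableSet
  exact indicator_of_mem (mem_image_of_mem _ hz) g

theorem ah_deriv (h0 : StmtT0) (h1 : StmtT1) (hU : IsOpen U) (hC : Cone U) {j : Fin N}
    {f g : E N → ℂ} (hg : L2 U g) (hf : AH U a b f) (hw : WB U j f g) : AH U a (b - 1) g := by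
  intro c hc
  obtain ⟨hloc, -, hint, -⟩ := (h1 N U hU hC.1).1 g hg
  obtain ⟨-, -, -, htest, huniq, -⟩ := h1 N U hU hC.1
  have hloc' := loc_smul h0 hU hC hloc hc
  have hc' : c⁻¹ ≠ 0 := inv_ne_zero hc
  have hcc : conj c ≠ 0 := by simpa using hc
  have hn : ((‖c‖ ^ (2 * N) : ℝ) : ℂ) ≠ 0 := by
    have : ‖c‖ ≠ 0 := norm_ne_zero_iff.2 hc
    exact_mod_cast pow_ne_zero _ this
  have key := huniq (fun z => g (c • z) - c ^ a * conj c ^ (b - 1) * g z)
    (hloc'.sub (hloc.smul (c ^ a * conj c ^ (b - 1)))) (by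
      intro ψ hψ
      have hψ' := test_smul hC hψ hc'
      have i1 : IntegrableOn (fun z => g (c • z) * ψ z) U := by
        have := (h0.1 N c hc).2.2.1 _ (hint _ hψ'.1.continuous hψ'.2.1 hψ'.2.2).1
        simp only [smul_smul, inv_mul_cancel₀ hc, one_smul] at this
        exact this.integrableOn
      have i2 : IntegrableOn (fun z => g z * ψ z) U :=
        (hint _ hψ.1.continuous hψ.2.1 hψ.2.2).1.integrableOn
      have e1 := scale_any h0 hC g _ hψ'.2.2 hc
      simp only [smul_smul, inv_mul_cancel₀ hc, one_smul] at e1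
      have e2 := hw _ hψ'
      simp only [dzb_smul (hψ.1.differentiable (by simp)) c⁻¹ j] at e2
      have e3 := scale_hom h0 hU hC hf (dzb j ψ) ((htest ψ hψ).2.2.1 j).2.2.2 hc'
      have e4 := hw _ hψ
      have e5 : ∫ z in U, f z * (conj c⁻¹ * dzb j ψ (c⁻¹ • z)) =
          conj c⁻¹ * ∫ z in U, f z * dzb j ψ (c⁻¹ • z) := by
        rw [← integral_const_mul]
        exact integral_congr_ae (ae_of_all _ fun z => by ring)
      have e6 : ∀ z, (g (c • z) - c ^ a * conj c ^ (b - 1) * g z) * ψ z =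
          g (c • z) * ψ z - c ^ a * conj c ^ (b - 1) * (g z * ψ z) := fun z => by ring
      simp only [e6]
      rw [integral_sub i1 (i2.const_mul _), integral_const_mul, e1]
      rw [e5] at e2
      rw [e4, norm_inv, inv_pow, ofReal_inv, inv_inv, map_inv₀, inv_zpow, inv_zpow] at e3
      rw [map_inv₀] at e2
      have ha : c ^ a ≠ 0 := zpow_ne_zero _ hc
      have hb : conj c ^ b ≠ 0 := zpow_ne_zero _ hcc
      have e7 : ∫ z in U, f z * dzb j ψ (c⁻¹ • z) = c ^ a * conj c ^ b *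
          (((‖c‖ ^ (2 * N) : ℝ) : ℂ) * -∫ z in U, g z * ψ z) := by
        rw [← e3]
        field_simp
      have e8 : ∫ z in U, g z * ψ (c⁻¹ • z) = -((conj c)⁻¹ * (c ^ a * conj c ^ b *
          (((‖c‖ ^ (2 * N) : ℝ) : ℂ) * -∫ z in U, g z * ψ z))) := by
        rw [← e7, e2, neg_neg]
      rw [e8, zpow_sub_one₀ hcc]
      field_simp
      ring)
  filter_upwards [key] with z h hz
  exact sub_eq_zero.1 (h hz)

theorem rot_zero (h0 : StmtT0) (g : E N → ℂ) (κ : ℝ → ℝ) (hκ : κ 0 = 0 ∨ 1 ≤ N)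
    (hg : AH (E0 N) a b g) (hab : a ≠ b) : ∫ z, (κ (‖z‖ ^ 2) : ℂ) * g z = 0 := by
  have hab' : ((a : ℝ) - b) ≠ 0 := sub_ne_zero.2 (by exact_mod_cast hab)
  set t : ℝ := Real.pi / ((a : ℝ) - b) with ht
  set c : ℂ := cexp (t * I) with hc
  have hc0 : c ≠ 0 := exp_ne_zero _
  have hn : ‖c‖ = 1 := norm_exp_ofReal_mul_I t
  have hm : c ^ a * conj c ^ b = -1 := by
    rw [hc, ← exp_conj, map_mul, conj_ofReal, conj_I, ← exp_int_mul, ← exp_int_mul, ← exp_add,
      ← exp_pi_mul_I]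
    congr 1
    have : (Real.pi : ℂ) = t * ((a : ℂ) - b) := by
      have h2 : Real.pi = t * ((a : ℝ) - b) := by rw [ht]; field_simp
      exact_mod_cast congrArg (fun x : ℝ => (x : ℂ)) h2
    rw [this]
    ring
  have h1 := (h0.1 N c hc0).1 fun z => (κ (‖z‖ ^ 2) : ℂ) * g z
  simp only [norm_smul, hn, one_mul, one_pow, ofReal_one, inv_one] at h1
  have h2 : ∫ z, (κ (‖z‖ ^ 2) : ℂ) * g (c • z) = -∫ z, (κ (‖z‖ ^ 2) : ℂ) * g z := by
    rw [← integral_neg]
    refine integral_congr_ae ?_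
    have h3 : ∀ᵐ z : E N, z = 0 → κ 0 = 0 := by
      rcases hκ with h | h
      · exact ae_of_all _ fun _ _ => h
      · have : Nontrivial (E N) := by
          apply Module.nontrivial_of_finrank_pos (R := ℝ)
          rw [finrank_E]
          omega
        filter_upwards [Measure.ae_ne volume (0 : E N)] with z hz h0
        exact absurd h0 hz
    filter_upwards [hg c hc0, h3] with z h h'
    by_cases hz : z = 0
    · have h4 := h' hz
      subst hz
      simp [h4]
    · rw [h hz, hm]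
      ring
  rw [h2] at h1
  linear_combination (-1 / 2 : ℂ) * h1

theorem t2a (h0 : StmtT0) (h1 : StmtT1) (N : ℕ) (a b : ℤ) (U : Set (E N)) (hU : IsOpen U)
    (hC : Cone U) :
    (∀ f, Hom U a b f → AH U a b f) ∧
    (∀ f, AH U a b f → ContinuousOn f U → Hom U a b f) ∧
    (∀ f g, AH U a b f → (∀ᵐ z, z ∈ U → f z = g z) → AH U a b g) ∧
    (∀ f, L2 U f → AH U a b f → ∀ ψ, Test U ψ →
      ∫ z in U, f z * ∑ j, conj (z j) * dzb j ψ z = -((N : ℂ) + b) * ∫ z in U, f z * ψ z) ∧
    ∀ j f g, L2 U f → L2 U g → AH U a b f → WB U j f g → AH U a (b - 1) g := by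
  refine ⟨fun f h c hc => ae_of_all _ fun z hz => h c hc z hz, fun f h hf c hc => ?_,
    fun f g h hfg c hc => ?_, fun f hL hf ψ hψ => euler_b h0 h1 hU hC hL hf hψ,
    fun j f g _ hg hf hw => ah_deriv h0 h1 hU hC hg hf hw⟩
  · exact Measure.eqOn_open_of_ae_eq (μ := volume)
      ((ae_restrict_iff' hU.measurableSet).2 (h c hc)) hU
      (hf.comp (continuous_const_smul c).continuousOn fun z hz => hC.2 c hc z hz)
      (continuousOn_const.mul hf)
  · filter_upwards [h c hc, hfg, (h0.1 N c hc).2.2.2.ae hfg] with z k1 k2 k3 hz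
    rw [← k3 (hC.2 c hc z hz), ← k2 hz, k1 hz]

theorem rot_kap (h0 : StmtT0) (g : E N → ℂ) (κ : ℝ → ℝ) (hκ : Kap κ)
    (hg : AH (E0 N) a b g) (hab : a ≠ b) : ∫ z, (κ (‖z‖ ^ 2) : ℂ) * g z = 0 :=
  rot_zero h0 g κ (Or.inl (by
    by_contra h
    exact absurd (hκ.supp 0 h).1 (by norm_num))) hg hab

end Pool.Agent.MP_fcd29e_an.H75
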